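import Pool.Agent.Lib.MP_04668c_co.E.Base

/-!
# DIMN: dimensions of closed families
-/

set_option autoImplicit false
set_option linter.unusedSectionVars false

namespace Pool.Agent.Lib.MP_04668c_co.E.H27

open Finset Classical Module
open Pool.Agent.Lib.MP_04668c_co
open Pool.Agent.Lib.MP_04668c_co.E

theorem dimn : DimnStatement := by
  intro V X _ _ B hB hR K
  induction K using Finset.strongInduction with
  | H K ih =>
    rcases K.eq_empty_or_nonempty with rfl | hne
    · have h0 : (famK B ∅ ⊓ LinearMap.ker sumMap : Submodule ℝ (X → V → ℝ × ℝ)) = ⊥ := by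
        rw [eq_bot_iff]
        rintro Φ ⟨⟨h1, -, -⟩, -⟩
        rw [Submodule.mem_bot]
        funext x
        exact h1 x (Finset.notMem_empty x)
      rw [h0]
      simp
    by_cases hK : Conn (adjB B) K
    · have h1 := finrank_famS B (fun x => Finset.card_pos.1 (lt_of_lt_of_le two_pos (hB x))) K hK ⊥
      have h2 : (famS B K ⊥ : Submodule ℝ (X → V → ℝ × ℝ)) = famK B K ⊓ LinearMap.ker sumMap := rfl
      rw [h2, finrank_bot] at h1
      have h3 := hR K hne
      have h4 : ∑ x ∈ K, (2 * (B x).card - 2) = Rk B K + K.card := by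
        unfold Rk
        rw [Finset.card_eq_sum_ones, ← Finset.sum_add_distrib]
        refine Finset.sum_congr rfl fun x _ => ?_
        have := hB x
        omega
      omega
    · unfold Conn at hK
      push Not at hK
      obtain ⟨Y, hYK, hYne, hYneK, hY⟩ := hK
      have hss : Y ⊂ K := lt_of_le_of_ne hYK hYneK
      have hss' : K \ Y ⊂ K := by
        refine Finset.sdiff_ssubset hYK hYne
      have h1 := ih Y hss
      have h2 := ih (K \ Y) hss'
      have hdis : ∀ x ∈ Y, ∀ y ∈ K \ Y, ∀ v, v ∈ B x → v ∉ B y := by
        intro x hx y hy v hvx hvy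
        rw [Finset.mem_sdiff] at hy
        exact hY x hx y hy.1 hy.2 ⟨v, hvx, hvy⟩
      have hle : (famK B K ⊓ LinearMap.ker sumMap : Submodule ℝ (X → V → ℝ × ℝ)) ≤
          (famK B Y ⊓ LinearMap.ker sumMap) ⊔ (famK B (K \ Y) ⊓ LinearMap.ker sumMap) := by
        rintro Φ ⟨⟨a1, a2, a3⟩, a4⟩
        have a4 : ∑ x, Φ x = 0 := LinearMap.mem_ker.1 a4
        set Φ1 : X → V → ℝ × ℝ := fun x => if x ∈ Y then Φ x else 0 with hΦ1
        set Φ2 : X → V → ℝ × ℝ := fun x => if x ∈ K \ Y then Φ x else 0 with hΦ2
        have hsum : Φ1 + Φ2 = Φ := by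
          funext x
          rw [Pi.add_apply, hΦ1, hΦ2]
          by_cases hx : x ∈ Y
          · have : x ∉ K \ Y := fun h => (Finset.mem_sdiff.1 h).2 hx
            simp only [if_pos hx, if_neg this, add_zero]
          · by_cases hxK : x ∈ K
            · have : x ∈ K \ Y := Finset.mem_sdiff.2 ⟨hxK, hx⟩
              simp only [if_neg hx, if_pos this, zero_add]
            · have : x ∉ K \ Y := fun h => hxK (Finset.mem_sdiff.1 h).1
              simp only [if_neg hx, if_neg this, add_zero, a1 x hxK]
        have hf1 : Φ1 ∈ famK B Y := by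
          refine ⟨fun x hx => ?_, fun x v hv => ?_, fun x => ?_⟩
          · rw [hΦ1]; simp only [if_neg hx]
          · rw [hΦ1]
            by_cases hx : x ∈ Y
            · simp only [if_pos hx]; exact a2 x v hv
            · simp only [if_neg hx]; rfl
          · rw [hΦ1]
            by_cases hx : x ∈ Y
            · simp only [if_pos hx]; exact a3 x
            · simp only [if_neg hx]; simp
        have hf2 : Φ2 ∈ famK B (K \ Y) := by
          refine ⟨fun x hx => ?_, fun x v hv => ?_, fun x => ?_⟩
          · rw [hΦ2]; simp only [if_neg hx]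
          · rw [hΦ2]
            by_cases hx : x ∈ K \ Y
            · simp only [if_pos hx]; exact a2 x v hv
            · simp only [if_neg hx]; rfl
          · rw [hΦ2]
            by_cases hx : x ∈ K \ Y
            · simp only [if_pos hx]; exact a3 x
            · simp only [if_neg hx]; simp
        have hs : sumMap Φ1 + sumMap Φ2 = 0 := by
          rw [← map_add, hsum, sumMap_apply]
          exact a4
        have hz1 : ∀ v, v ∉ vs B Y → sumMap Φ1 v = 0 := by
          intro v hv
          rw [sumMap_apply, Finset.sum_apply]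
          refine Finset.sum_eq_zero fun x _ => ?_
          by_cases hx : x ∈ Y
          · exact hf1.2.1 x v fun h => hv ((mem_vs B Y v).2 ⟨x, hx, h⟩)
          · rw [hf1.1 x hx]; rfl
        have hz2 : ∀ v, v ∈ vs B Y → sumMap Φ2 v = 0 := by
          intro v hv
          obtain ⟨y, hy, hvy⟩ := (mem_vs B Y v).1 hv
          rw [sumMap_apply, Finset.sum_apply]
          refine Finset.sum_eq_zero fun x _ => ?_
          by_cases hx : x ∈ K \ Y
          · exact hf2.2.1 x v (hdis y hy x hx v hvy)
          · rw [hf2.1 x hx]; rfl
        have hs1 : sumMap Φ1 = 0 := by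
          funext v
          by_cases hv : v ∈ vs B Y
          · have := congrFun hs v
            rw [Pi.add_apply, hz2 v hv, add_zero] at this
            exact this
          · exact hz1 v hv
        have hs2 : sumMap Φ2 = 0 := by
          rw [hs1, zero_add] at hs
          exact hs
        rw [← hsum]
        exact Submodule.add_mem_sup ⟨hf1, LinearMap.mem_ker.2 hs1⟩ ⟨hf2, LinearMap.mem_ker.2 hs2⟩
      have h3 := Submodule.finrank_mono hle
      have h4 := Submodule.finrank_add_le_finrank_add_finrank
        (famK B Y ⊓ LinearMap.ker sumMap : Submodule ℝ (X → V → ℝ × ℝ))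
        (famK B (K \ Y) ⊓ LinearMap.ker sumMap)
      have h5 : Y.card + (K \ Y).card = K.card := by
        rw [add_comm]
        exact Finset.card_sdiff_add_card_eq_card hYK
      omega

end Pool.Agent.Lib.MP_04668c_co.E.H27
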