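import Pool.Agent.Lib.MP_04668c_co.E.Base

/-!
# KILLC: at most 4b colours kill a force
-/

set_option autoImplicit false
set_option linter.unusedSectionVars false

namespace Pool.Agent.Lib.MP_04668c_co.E.H27

open Finset Classical Module
open Pool.Agent.Lib.MP_04668c_co
open Pool.Agent.Lib.MP_04668c_co.E

theorem killc : KillcStatement := by
  intro V X _ _ B b idx j a s τ hN hτ x F hF hsupp
  obtain ⟨hj, hjb⟩ := hN x
  set k : ℝ := ip (Pi.single (j x) (e2 (a x)) : V → ℝ × ℝ) F with hk
  set P : Polynomial ℝ := ∑ v ∈ B x, (Polynomial.C (F v).1 * Polynomial.X ^ (2 * idx x v + 1) +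
    Polynomial.C (F v).2 * Polynomial.X ^ (4 * idx x v + 2)) with hP
  have heval : ∀ T : ℝ, P.eval T = ip (fun v => shp T (idx x v)) F := by
    intro T
    rw [hP, Polynomial.eval_finsetSum, ip_apply]
    have h1 : ∑ v, ((F v).1 * (shp T (idx x v)).1 + (F v).2 * (shp T (idx x v)).2) =
        ∑ v ∈ B x, ((F v).1 * (shp T (idx x v)).1 + (F v).2 * (shp T (idx x v)).2) := by
      symm
      refine Finset.sum_subset (Finset.subset_univ _) (fun v _ hv => ?_)
      rw [hsupp v hv]; simp
    rw [h1]
    refine Finset.sum_congr rfl (fun v _ => ?_)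
    simp [shp]
  have hcoef : ∀ n : ℕ, P.coeff n = ∑ v ∈ B x, ((if n = 2 * idx x v + 1 then (F v).1 else 0) +
      (if n = 4 * idx x v + 2 then (F v).2 else 0)) := by
    intro n
    rw [hP, Polynomial.finsetSum_coeff]
    refine Finset.sum_congr rfl (fun v _ => ?_)
    rw [Polynomial.coeff_add, Polynomial.coeff_C_mul, Polynomial.coeff_C_mul,
      Polynomial.coeff_X_pow, Polynomial.coeff_X_pow]
    simp
  set P' : Polynomial ℝ := P + Polynomial.C (k / τ) with hP'
  have hP0 : P' ≠ 0 := by
    intro h0
    apply hF
    have hc : ∀ n, n ≠ 0 → P.coeff n = 0 := by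
      intro n hn
      have h1 : P'.coeff n = 0 := by rw [h0, Polynomial.coeff_zero]
      rw [hP', Polynomial.coeff_add, Polynomial.coeff_C, if_neg hn, add_zero] at h1
      exact h1
    funext v
    by_cases hv : v ∈ B x
    · have h1 : P.coeff (2 * idx x v + 1) = (F v).1 := by
        rw [hcoef, Finset.sum_eq_single v]
        · rw [if_pos rfl, if_neg (by omega), add_zero]
        · intro z hz hzv
          rw [if_neg (fun h => hzv (hj z hz v hv (by omega))), if_neg (by omega), add_zero]
        · intro h; exact absurd hv h
      have h2 : P.coeff (4 * idx x v + 2) = (F v).2 := by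
        rw [hcoef, Finset.sum_eq_single v]
        · rw [if_neg (by omega), if_pos rfl, zero_add]
        · intro z hz hzv
          rw [if_neg (by omega), if_neg (fun h => hzv (hj z hz v hv (by omega))), add_zero]
        · intro h; exact absurd hv h
      rw [hc _ (by omega)] at h1 h2
      exact Prod.ext h1.symm h2.symm
    · exact hsupp v hv
  have hdeg : P'.natDegree ≤ 4 * b := by
    rw [hP']
    refine (Polynomial.natDegree_add_le _ _).trans (max_le ?_ ?_)
    · rw [hP]
      refine Polynomial.natDegree_sum_le_of_forall_le _ _ (fun v hv => ?_)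
      have hb := hjb v hv
      refine (Polynomial.natDegree_add_le _ _).trans (max_le ?_ ?_)
      · refine (Polynomial.natDegree_C_mul_X_pow_le _ _).trans (by omega)
      · refine (Polynomial.natDegree_C_mul_X_pow_le _ _).trans (by omega)
    · rw [Polynomial.natDegree_C]
      exact Nat.zero_le _
  have hip : ∀ i : ℕ, ip (qs idx j a τ i x) F =
      k + τ * ip (fun v => shp ((i : ℝ) + 2) (idx x v)) F := by
    intro i
    rw [hk, ip_apply, ip_apply, ip_apply, Finset.mul_sum, ← Finset.sum_add_distrib]
    refine Finset.sum_congr rfl fun v _ => ?_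
    simp only [qs, Prod.fst_add, Prod.snd_add, Prod.smul_fst, Prod.smul_snd, smul_eq_mul]
    ring
  calc (univ.filter (fun i : Fin s => ip (qs idx j a τ i.val x) F = 0)).card
      ≤ P'.roots.toFinset.card := by
        refine Finset.card_le_card_of_injOn (fun i => (i.val : ℝ) + 2) ?_ ?_
        · intro i hi
          simp only [coe_filter, mem_univ, true_and, Set.mem_ofPred_eq] at hi
          rw [mem_coe, Multiset.mem_toFinset, Polynomial.mem_roots hP0, Polynomial.IsRoot.def,
            hP', Polynomial.eval_add, Polynomial.eval_C, heval]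
          rw [hip] at hi
          field_simp
          linarith
        · intro i _ k _ hik
          simp only [add_left_inj, Nat.cast_inj] at hik
          exact Fin.ext hik
    _ ≤ Multiset.card P'.roots := Multiset.toFinset_card_le _
    _ ≤ P'.natDegree := Polynomial.card_roots' P'
    _ ≤ 4 * b := hdeg

end Pool.Agent.Lib.MP_04668c_co.E.H27
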